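import Pool.Agent.H21.L.R_pool_sql_team_seeded_2aa45f1a.Q5.VA.Sys
import Pool.Agent.H21.L.R_pool_sql_team_seeded_2aa45f1a.Q5.VA.Num
import Pool.Agent.H21.L.R_pool_sql_team_seeded_2aa45f1a.Q5.MS.Gen

/-!
# Euler products of varieties with given Frobenius eigenvalues
-/

set_option autoImplicit false

open Filter Topology Complex NumberField IsDedekindDomain ComplexConjugate MeasureTheory Set

namespace Pool.Agent.Q5.VA

open Pool.Agent.TH942.ES (Sys zv xv cv nf_sys cP)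
open Pool.Agent.H921R2.TatePole (nm two_le_nm)
open Pool.Agent.TH958.BV (IsFrobenius)

variable {K : Type} [Field K] [NumberField K] {n : ℕ} {X : Set (MvPolynomial (Fin n) (𝓞 K))}
  {d N : ℕ} {S : Finset (HeightOneSpectrum (𝓞 K))}

/-- the norms -/
noncomputable abbrev NS (S : Finset (HeightOneSpectrum (𝓞 K))) :
    {v : HeightOneSpectrum (𝓞 K) // v ∉ S} → ℕ := fun v => nm v.1

/-- the normalised eigenvalues -/
noncomputable def aD (i : ℕ) (S : Finset (HeightOneSpectrum (𝓞 K)))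
    (α : HeightOneSpectrum (𝓞 K) → Fin N → ℂ) (v : {v : HeightOneSpectrum (𝓞 K) // v ∉ S})
    (j : Fin N) : ℂ := α v.1 j / (((nm v.1 : ℝ) ^ ((i : ℝ) / 2) : ℝ) : ℂ)

/-- the eigenvalues outside of `S` are those of Frobenius -/
def Frob (X : Set (MvPolynomial (Fin n) (𝓞 K))) (d i : ℕ)
    (S : Finset (HeightOneSpectrum (𝓞 K))) (α : HeightOneSpectrum (𝓞 K) → Fin N → ℂ) : Prop :=
  ∀ v : HeightOneSpectrum (𝓞 K), v ∉ S → IsFrobenius X d i v (α v)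

variable {i : ℕ} {α : HeightOneSpectrum (𝓞 K) → Fin N → ℂ}

theorem zD_eq (v : {v : HeightOneSpectrum (𝓞 K) // v ∉ S}) (j : Fin N) :
    zv (NS S) (aD i S α) v j = α v.1 j * (((nm v.1 : ℝ) ^ (-(((i : ℝ) + 1) / 2)) : ℝ) : ℂ) := by
  have hp2 : (2 : ℝ) ≤ nm v.1 := by exact_mod_cast two_le_nm v.1
  have hq : (0 : ℝ) < nm v.1 := by linarith
  unfold zv aD
  rw [div_div, ← Complex.ofReal_mul, Real.sqrt_eq_rpow, ← Real.rpow_add hq, div_eq_mul_inv,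
    ← Complex.ofReal_inv, ← Real.rpow_neg hq.le]
  congr 4
  ring

namespace Frob

variable (h : Frob X d i S α)
include h

theorem norm_le (v : {v : HeightOneSpectrum (𝓞 K) // v ∉ S}) (j : Fin N) :
    ‖aD i S α v j‖ ≤ 1 := by
  have hp2 : (2 : ℝ) ≤ nm v.1 := by exact_mod_cast two_le_nm v.1
  have h0 : 0 < (nm v.1 : ℝ) ^ ((i : ℝ) / 2) := Real.rpow_pos_of_pos (by linarith) _
  unfold aD
  rw [norm_div, frob_norm (h v.1 v.2) j, Complex.norm_real,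
    Real.norm_of_nonneg h0.le, div_self h0.ne']

theorem lt_one (v : {v : HeightOneSpectrum (𝓞 K) // v ∉ S}) (j : Fin N) :
    ‖α v.1 j * (((nm v.1 : ℝ) ^ (-(((i : ℝ) + 1) / 2)) : ℝ) : ℂ)‖ < 1 := by
  have hp2 : (2 : ℝ) ≤ nm v.1 := by exact_mod_cast two_le_nm v.1
  have hq : (0 : ℝ) < nm v.1 := by linarith
  have h0 : 0 < (nm v.1 : ℝ) ^ (-(((i : ℝ) + 1) / 2)) := Real.rpow_pos_of_pos hq _
  rw [norm_mul, frob_norm (h v.1 v.2) j, Complex.norm_real, Real.norm_of_nonneg h0.le,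
    ← Real.rpow_add hq]
  refine Real.rpow_lt_one_of_one_lt_of_neg (by linarith) ?_
  linarith

theorem log_im (hi : i ≤ 2 * d) (v : {v : HeightOneSpectrum (𝓞 K) // v ∉ S}) :
    (∑ j, log (1 - zv (NS S) (aD i S α) v j)).im = 0 := by
  simp only [zD_eq]
  refine sum_im hi (h v.1 v.2) (f := fun z => log (1 - z *
    (((nm v.1 : ℝ) ^ (-(((i : ℝ) + 1) / 2)) : ℝ) : ℂ))) fun j => ?_
  have h1 := h.lt_one v j
  have h2 : (1 - α v.1 j * (((nm v.1 : ℝ) ^ (-(((i : ℝ) + 1) / 2)) : ℝ) : ℂ)).arg ≠ Real.pi := by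
    intro h3
    rw [Complex.arg_eq_pi_iff] at h3
    have h4 := (abs_le.1 (Complex.abs_re_le_norm (α v.1 j *
      (((nm v.1 : ℝ) ^ (-(((i : ℝ) + 1) / 2)) : ℝ) : ℂ)))).2
    have h5 := h3.1
    rw [Complex.sub_re, Complex.one_re] at h5
    linarith
  have h3 : 1 - conj (α v.1 j) * (((nm v.1 : ℝ) ^ (-(((i : ℝ) + 1) / 2)) : ℝ) : ℂ) =
      conj (1 - α v.1 j * (((nm v.1 : ℝ) ^ (-(((i : ℝ) + 1) / 2)) : ℝ) : ℂ)) := by
    rw [map_sub, map_one, map_mul, Complex.conj_ofReal]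
  rw [h3, Complex.log_conj _ h2]

/-- **the Euler system of a variety** -/
theorem sys (hi : i ≤ 2 * d) : Sys (NS S) (aD i S α) :=
  nf_sys (fun v => v ∉ S) (aD i S α) h.norm_le fun v => h.log_im hi v

/-- the power sums are real -/
theorem real (hi : i ≤ 2 * d) (v : {v : HeightOneSpectrum (𝓞 K) // v ∉ S}) (k : ℕ) :
    (∑ j, zv (NS S) (aD i S α) v j ^ k).im = 0 := by
  simp only [zD_eq]
  refine sum_im hi (h v.1 v.2) (f := fun z => (z *
    (((nm v.1 : ℝ) ^ (-(((i : ℝ) + 1) / 2)) : ℝ) : ℂ)) ^ k) fun j => ?_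
  rw [map_pow, map_mul, Complex.conj_ofReal]

theorem real_tr (hi : i ≤ 2 * d) (v : {v : HeightOneSpectrum (𝓞 K) // v ∉ S}) (k : ℕ) :
    (∑ j, α v.1 j ^ k).im = 0 := by
  refine sum_im hi (h v.1 v.2) (f := fun z => z ^ k) fun j => ?_
  rw [map_pow]

/-- the logarithm of the local factor at the centre -/
theorem cv_eq (v : {v : HeightOneSpectrum (𝓞 K) // v ∉ S}) :
    cv (NS S) (aD i S α) v = Real.log ‖∏ j, (1 - α v.1 j *
      (((nm v.1 : ℝ) ^ (-(((i : ℝ) + 1) / 2)) : ℝ) : ℂ))‖ := by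
  have hne : ∀ j, 1 - α v.1 j * (((nm v.1 : ℝ) ^ (-(((i : ℝ) + 1) / 2)) : ℝ) : ℂ) ≠ 0 := by
    intro j h0
    have h1 := h.lt_one v j
    rw [← sub_eq_zero.1 h0, norm_one] at h1
    exact lt_irrefl _ h1
  unfold cv
  rw [norm_prod, Real.log_prod (fun j _ => norm_ne_zero_iff.2 (hne j)), Complex.re_sum]
  refine Finset.sum_congr rfl fun j _ => ?_
  rw [zD_eq, Complex.log_re]

end Frob

/-- the local factors -/
theorem factorD (v : {v : HeightOneSpectrum (𝓞 K) // v ∉ S}) (s : ℂ) :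
    ∏ j, (1 - zv (NS S) (aD i S α) v j * xv (NS S) v (s - (((i : ℝ) + 1) / 2 : ℝ)))⁻¹ =
      (∏ j, (1 - α v.1 j * (nm v.1 : ℂ) ^ (-s)))⁻¹ := by
  have hp2 : (2 : ℝ) ≤ nm v.1 := by exact_mod_cast two_le_nm v.1
  have hq : (0 : ℝ) < nm v.1 := by linarith
  have hqc : (nm v.1 : ℂ) ≠ 0 := by exact_mod_cast hq.ne'
  rw [Finset.prod_inv_distrib]
  congr 1
  refine Finset.prod_congr rfl fun j _ => ?_
  rw [zD_eq, mul_assoc]
  congr 2
  have h1 : xv (NS S) v (s - (((i : ℝ) + 1) / 2 : ℝ)) =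
      (nm v.1 : ℂ) ^ (-(s - (((i : ℝ) + 1) / 2 : ℝ))) := by
    unfold xv
    rw [Complex.cpow_def_of_ne_zero hqc, ← Complex.ofReal_natCast, ← Complex.ofReal_log hq.le]
    congr 1
    ring
  have h2 : (((nm v.1 : ℝ) ^ (-(((i : ℝ) + 1) / 2)) : ℝ) : ℂ) =
      (nm v.1 : ℂ) ^ (-((((i : ℝ) + 1) / 2 : ℝ) : ℂ)) := by
    rw [Complex.ofReal_cpow hq.le]
    push_cast
    rfl
  rw [h1, h2, ← Complex.cpow_add _ _ hqc]
  congr 1
  ring

/-- the terms of the sum over the prime powers -/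
theorem cP_D (c : ℝ) (hc : c = ((i : ℝ) + 1) / 2)
    (p : {v : HeightOneSpectrum (𝓞 K) // v ∉ S} × ℕ) :
    cP (NS S) (aD i S α) p = (∑ j, α p.1.1 j ^ (p.2 + 1)).re /
      (((p.2 : ℝ) + 1) * ((nm p.1.1 : ℝ) ^ c) ^ (p.2 + 1)) := by
  have hp2 : (2 : ℝ) ≤ nm p.1.1 := by exact_mod_cast two_le_nm p.1.1
  have hq : (0 : ℝ) < nm p.1.1 := by linarith
  have h0 : 0 < (nm p.1.1 : ℝ) ^ c := Real.rpow_pos_of_pos hq _
  have h1 : ∑ j, zv (NS S) (aD i S α) p.1 j ^ (p.2 + 1) =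
      (∑ j, α p.1.1 j ^ (p.2 + 1)) * ((((nm p.1.1 : ℝ) ^ c) ^ (p.2 + 1))⁻¹ : ℝ) := by
    rw [Finset.sum_mul]
    refine Finset.sum_congr rfl fun j _ => ?_
    rw [zD_eq, mul_pow, ← hc, Real.rpow_neg hq.le, ← Complex.ofReal_pow, inv_pow]
  unfold cP
  rw [h1, Complex.re_mul_ofReal]
  field_simp

/-- `F` continues the Euler product to a half plane `Re s > c - η`, analytic except perhaps for a pole at `c`,
of polynomial growth -/
def TemperedAt (c : ℝ) {Y : Type} {e : ℕ} (M : Y → ℕ) (β : Y → Fin e → ℂ) (F : ℂ → ℂ) : Prop :=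
  (∃ (η C : ℝ) (k κ : ℕ) (G : ℂ → ℂ), 0 < η ∧
    (∀ s : ℂ, c - η < s.re → DifferentiableAt ℂ G s ∧ ‖G s‖ ≤ C * (1 + ‖s‖) ^ κ) ∧
    ∀ s : ℂ, c - η < s.re → s ≠ c → G s = (s - c) ^ k * F s) ∧
  ∀ s : ℂ, c + 1 / 2 < s.re →
    HasProd (fun v => ∏ i, (1 - zv M β v i * xv M v (s - c))⁻¹) (F s)

theorem temp_data {c : ℝ} {Y : Type} {e : ℕ} {M : Y → ℕ} {β : Y → Fin e → ℂ} {F : ℂ → ℂ}
    (E : Sys M β) (hreal : ∀ v k, (∑ i, zv M β v i ^ k).im = 0) (hF : TemperedAt c M β F) :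
    ∃ (G₀ : ℂ → ℂ) (k κ : ℕ) (η C : ℝ),
      Pool.Agent.TH270.MS.Mc M β (fun s => F (c + s)) G₀ k κ η C := by
  obtain ⟨⟨η, C, k, κ, G, hη, hG, hGF⟩, hL⟩ := hF
  refine ⟨fun s => G (c + s), k, κ, η, |C| * (1 + |c|) ^ κ, E, hreal, hη,
    fun s hs => ?_, fun s hs => ?_, fun s hs hs0 => ?_, fun s hs => ?_⟩
  · have h1 := (hG (c + s) (by rw [Complex.add_re, Complex.ofReal_re]; linarith)).1
    exact DifferentiableAt.comp s (f := fun s : ℂ => c + s) h1 (by fun_prop)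
  · refine (hG (c + s) (by rw [Complex.add_re, Complex.ofReal_re]; linarith)).2.trans ?_
    have h1 : 1 + ‖c + s‖ ≤ (1 + |c|) * (1 + ‖s‖) := by
      have := norm_add_le (c : ℂ) s
      rw [Complex.norm_real, Real.norm_eq_abs] at this
      nlinarith [norm_nonneg s, abs_nonneg c]
    calc C * (1 + ‖c + s‖) ^ κ ≤ |C| * ((1 + |c|) * (1 + ‖s‖)) ^ κ :=
          mul_le_mul (le_abs_self _) (pow_le_pow_left₀ (by positivity) h1 κ) (by positivity)
            (abs_nonneg _)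
      _ = _ := by rw [mul_pow]; ring
  · have h1 := hGF (c + s) (by rw [Complex.add_re, Complex.ofReal_re]; linarith)
      (by simpa using hs0)
    rwa [add_sub_cancel_left] at h1
  · have h1 := hL (c + s) (by rw [Complex.add_re, Complex.ofReal_re]; linarith)
    simp only [add_sub_cancel_left] at h1
    exact h1.tprod_eq.symm

theorem mero_shiftC (F : ℂ → ℂ) (c : ℂ) :
    meromorphicOrderAt (fun s => F (c + s)) 0 = meromorphicOrderAt F c := by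
  have h1 : AnalyticAt ℂ (fun s : ℂ => c + s) 0 := by fun_prop
  have h2 : deriv (fun s : ℂ => c + s) 0 ≠ 0 := by simp
  have h3 := meromorphicOrderAt_comp_of_deriv_ne_zero (f := F) h1 h2
  simp only [add_zero] at h3
  exact h3

theorem zeros_shiftC (F : ℂ → ℂ) (c : ℝ) :
    (∀ s : ℂ, 0 < s.re → F (c + s) ≠ 0) ↔ ∀ s : ℂ, c < s.re → F s ≠ 0 := by
  refine ⟨fun h s hs => ?_, fun h s hs => h _ (by simpa using hs)⟩
  have := h (s - c) (by simpa using hs)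
  rwa [add_sub_cancel] at this

end Pool.Agent.Q5.VA
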