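import Pool.Agent.H21.L.R_pool_sql_team_seeded_2aa45f1a.Q5.VA.Riesz

/-!
# Abelian varieties: the Frobenius eigenvalues and the numbers of points
-/

set_option autoImplicit false

open Filter Topology Complex NumberField IsDedekindDomain ComplexConjugate MeasureTheory Set

namespace Pool.Agent.Q5.VA

open Pool.Agent.TH942.ES (Sys zv xv cv)
open Pool.Agent.H921R2.TatePole (nm two_le_nm)
open Pool.Agent.TH958.BV (IsFrobenius cone)

variable {K : Type} [Field K] [NumberField K] {n : ℕ} {X : Set (MvPolynomial (Fin n) (𝓞 K))}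
  {g : ℕ} {v : HeightOneSpectrum (𝓞 K)} {α : Fin (2 * g) → ℂ}

/-- the numbers of points are those of an abelian variety with the Frobenius eigenvalues `α` -/
def IsWeil (X : Set (MvPolynomial (Fin n) (𝓞 K))) (g : ℕ) (v : HeightOneSpectrum (𝓞 K))
    (α : Fin (2 * g) → ℂ) : Prop :=
  (∀ j, ‖α j‖ = √(Ideal.absNorm v.asIdeal : ℝ)) ∧
    ∀ (κ : Type) [Field κ] [Finite κ] (φ : 𝓞 K →+* κ) (e : ℕ), RingHom.ker φ = v.asIdeal →
      Nat.card κ = Ideal.absNorm v.asIdeal ^ e →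
      (cone X φ : ℂ) = ((Ideal.absNorm v.asIdeal : ℂ) ^ e - 1) * ∏ j, (1 - α j ^ e)

theorem prod_one_sub {m : ℕ} (a : Fin m → ℂ) :
    ∏ j, (1 - a j) = ∑ k ∈ Finset.range (m + 1), (-1 : ℂ) ^ k *
      ∑ I ∈ (Finset.univ : Finset (Fin m)).powersetCard k, ∏ j ∈ I, a j := by
  have h1 := Finset.prod_add (fun j => -a j) (fun _ => (1 : ℂ)) (Finset.univ : Finset (Fin m))
  have h2 : ∏ j, (1 - a j) = ∏ j, (-a j + 1) := Finset.prod_congr rfl fun j _ => by ring
  rw [h2, h1, Finset.sum_powerset, Finset.card_univ, Fintype.card_fin]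
  refine Finset.sum_congr rfl fun k _ => ?_
  rw [Finset.mul_sum]
  refine Finset.sum_congr rfl fun I hI => ?_
  rw [Finset.prod_const_one, mul_one, Finset.prod_neg, (Finset.mem_powersetCard.1 hI).2]

/-- the Weil numbers of an abelian variety are the Frobenius eigenvalues on `H^1` -/
theorem IsWeil.frob (h : IsWeil X g v α) : IsFrobenius X g 1 v α := by
  obtain ⟨h1, h2⟩ := h
  have hp2 : (2 : ℝ) ≤ Ideal.absNorm v.asIdeal := by exact_mod_cast two_le_nm v
  refine ⟨fun k => ((Finset.univ : Finset (Fin (2 * g))).powersetCard k).val.map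
    fun I => ∏ j ∈ I, α j, ?_, ?_, ?_⟩
  · simp only [Finset.powersetCard_one, Finset.map_val, Multiset.map_map]
    refine Multiset.map_congr rfl fun j _ => ?_
    simp
  · intro k z hz
    simp only [Multiset.mem_map, Finset.mem_val, Finset.mem_powersetCard] at hz
    obtain ⟨I, ⟨-, hI⟩, rfl⟩ := hz
    rw [norm_prod, Finset.prod_congr rfl fun j _ => h1 j, Finset.prod_const, hI,
      Real.sqrt_eq_rpow, ← Real.rpow_natCast, ← Real.rpow_mul (by linarith)]
    congr 1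
    ring
  · intro κ _ _ φ e hφ he
    rw [h2 κ φ e hφ he, prod_one_sub]
    congr 1
    refine Finset.sum_congr rfl fun k _ => ?_
    congr 1
    rw [Multiset.map_map]
    show _ = ∑ I ∈ (Finset.univ : Finset (Fin (2 * g))).powersetCard k, (∏ j ∈ I, α j) ^ e
    exact Finset.sum_congr rfl fun I _ => (Finset.prod_pow _ _ _)

theorem norm_factor (h : IsWeil X g v α) (j : Fin (2 * g)) :
    ‖1 - α j * (((nm v : ℝ) ^ (-(1 : ℝ)) : ℝ) : ℂ)‖ = ‖1 - α j‖ / √(nm v : ℝ) := by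
  have hp2 : (2 : ℝ) ≤ nm v := by exact_mod_cast two_le_nm v
  have hq : (0 : ℝ) < nm v := by linarith
  have hs : 0 < √(nm v : ℝ) := Real.sqrt_pos.2 hq
  have hn : ‖α j‖ = √(nm v : ℝ) := h.1 j
  have hα0 : α j ≠ 0 := norm_ne_zero_iff.1 (by rw [hn]; exact hs.ne')
  have h1 : ‖1 - α j * (((nm v : ℝ) ^ (-(1 : ℝ)) : ℝ) : ℂ)‖ =
      ‖1 - conj (α j) * (((nm v : ℝ) ^ (-(1 : ℝ)) : ℝ) : ℂ)‖ := by
    rw [← Complex.norm_conj]
    simp only [map_sub, map_one, map_mul, Complex.conj_ofReal]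
  have h2 : conj (α j) * (((nm v : ℝ) ^ (-(1 : ℝ)) : ℝ) : ℂ) = (α j)⁻¹ := by
    have h3 : α j * conj (α j) = ((nm v : ℝ) : ℂ) := by
      rw [Complex.mul_conj, Complex.normSq_eq_norm_sq, hn, Real.sq_sqrt hq.le]
    have hqc : ((nm v : ℝ) : ℂ) ≠ 0 := by exact_mod_cast hq.ne'
    rw [Real.rpow_neg_one, Complex.ofReal_inv]
    refine eq_inv_of_mul_eq_one_left ?_
    calc conj (α j) * ((nm v : ℝ) : ℂ)⁻¹ * α j = (α j * conj (α j)) * ((nm v : ℝ) : ℂ)⁻¹ := by ring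
      _ = 1 := by rw [h3, mul_inv_cancel₀ hqc]
  rw [h1, h2, ← hn, ← norm_div, ← norm_neg]
  congr 1
  field_simp
  ring

/-- the local factor at `s = 1` -/
theorem norm_prod_factor (h : IsWeil X g v α) :
    ‖∏ j, (1 - α j * (((nm v : ℝ) ^ (-(1 : ℝ)) : ℝ) : ℂ))‖ =
      ‖∏ j, (1 - α j)‖ / (nm v : ℝ) ^ g := by
  have hp2 : (2 : ℝ) ≤ nm v := by exact_mod_cast two_le_nm v
  rw [norm_prod, Finset.prod_congr rfl fun j _ => norm_factor h j, Finset.prod_div_distrib,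
    ← norm_prod, Finset.prod_const, Finset.card_univ, Fintype.card_fin, pow_mul,
    Real.sq_sqrt (by linarith)]

/-- the number of the points over the residue field, times `q_v - 1` -/
noncomputable def cone0 (X : Set (MvPolynomial (Fin n) (𝓞 K))) (v : HeightOneSpectrum (𝓞 K)) : ℕ :=
  Nat.card {u : Fin n → (𝓞 K ⧸ v.asIdeal) // u ≠ 0 ∧
    ∀ f ∈ X, MvPolynomial.eval₂ (Ideal.Quotient.mk v.asIdeal) u f = 0}

theorem cone0_eq (h : IsWeil X g v α) :
    (cone0 X v : ℝ) / (nm v - 1) = ‖∏ j, (1 - α j)‖ := by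
  have hp2 : (2 : ℝ) ≤ nm v := by exact_mod_cast two_le_nm v
  letI := Ideal.Quotient.field v.asIdeal
  haveI : Finite (𝓞 K ⧸ v.asIdeal) := Ideal.finiteQuotientOfFreeOfNeBot v.asIdeal v.ne_bot
  have h1 := h.2 (𝓞 K ⧸ v.asIdeal) (Ideal.Quotient.mk v.asIdeal) 1 (Ideal.mk_ker)
    (by rw [pow_one]; rfl)
  have h2 : (cone X (Ideal.Quotient.mk v.asIdeal) : ℂ) = (cone0 X v : ℂ) := by
    congr 1
  rw [h2] at h1
  simp only [pow_one] at h1
  have h3 := congrArg (fun z : ℂ => ‖z‖) h1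
  simp only [norm_mul] at h3
  rw [Complex.norm_natCast] at h3
  have h4 : ‖((Ideal.absNorm v.asIdeal : ℂ) - 1)‖ = nm v - 1 := by
    have h5 : ((Ideal.absNorm v.asIdeal : ℂ) - 1) = (((nm v : ℝ) - 1 : ℝ) : ℂ) := by
      push_cast
      rfl
    rw [h5, Complex.norm_real, Real.norm_of_nonneg (by linarith)]
  rw [h4] at h3
  rw [h3]
  have h6 : (nm v : ℝ) - 1 ≠ 0 := by
    intro h7
    linarith
  field_simp

end Pool.Agent.Q5.VA
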