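import Pool.Agent.H21.L.R_pool_sql_team_seeded_2aa45f1a.Q5.VA.Dat
import Pool.Agent.H21.L.R_pool_sql_team_seeded_2aa45f1a.Q5.MS.RieszLaw

/-!
# The Riesz laws at an arbitrary centre, for systems of primes of a number field
-/

set_option autoImplicit false

open Filter Topology Complex NumberField IsDedekindDomain ComplexConjugate MeasureTheory Set

namespace Pool.Agent.Q5.VA

open Pool.Agent.TH942.ES (Sys zv xv cv LE)
open Pool.Agent.TH942.RZ (rzw)
open Pool.Agent.TH270.RS (Lw)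
open Pool.Agent.Q5.MS (Sv)

variable {Y : Type} {e : ℕ} {M : Y → ℕ} {β : Y → Fin e → ℂ} {F : ℂ → ℂ} {c : ℝ}

/-- `F` continues the Euler product to the half plane `Re s > c`, analytic there and at `c`, of moderate growth -/
def ModerateAt (c : ℝ) (M : Y → ℕ) (β : Y → Fin e → ℂ) (F : ℂ → ℂ) : Prop :=
  (∀ s : ℂ, c < s.re → DifferentiableAt ℂ F s) ∧ AnalyticAt ℂ F c ∧
  (∃ (C : ℝ) (κ : ℕ), ∀ s : ℂ, c < s.re →
    ‖F s‖ ≤ C * (1 + ‖s‖) ^ κ * (1 + 1 / (s.re - c)) ^ κ) ∧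
  ∀ s : ℂ, c + 1 / 2 < s.re →
    HasProd (fun v => ∏ i, (1 - zv M β v i * xv M v (s - c))⁻¹) (F s)

theorem order_shift_ana {F : ℂ → ℂ} {c : ℂ} (h : AnalyticAt ℂ F c) {m : ℕ}
    (hm : analyticOrderAt F c = m) : analyticOrderAt (fun z => F (c + z)) 0 = m := by
  have hga : AnalyticAt ℂ (fun z : ℂ => F (c + z)) 0 := by
    have h2 : AnalyticAt ℂ (fun z : ℂ => c + z) 0 := by fun_prop
    exact AnalyticAt.comp (f := fun z : ℂ => c + z) (by simpa using h) h2
  rw [h.analyticOrderAt_eq_natCast] at hm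
  rw [hga.analyticOrderAt_eq_natCast]
  obtain ⟨g, hg, hg1, he⟩ := hm
  have ht : Tendsto (fun z : ℂ => c + z) (𝓝 0) (𝓝 c) := by
    have : Continuous fun z : ℂ => c + z := by fun_prop
    simpa using this.tendsto 0
  refine ⟨fun z => g (c + z), ?_, by simpa using hg1, ?_⟩
  · have h2 : AnalyticAt ℂ (fun z : ℂ => c + z) 0 := by fun_prop
    exact AnalyticAt.comp (f := fun z : ℂ => c + z) (by simpa using hg) h2
  · filter_upwards [ht.eventually he] with s hs
    rw [hs, add_sub_cancel_left, sub_zero]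

theorem mod_data (E : Sys M β) (hreal : ∀ v k, (∑ i, zv M β v i ^ k).im = 0)
    (hF : ModerateAt c M β F) :
    (∃ m : ℕ, analyticOrderAt F c = m) ∧
    (∀ m : ℕ, analyticOrderAt F c = m → Lw M β (fun s => F (c + s)) m) ∧
    ∃ (C : ℝ) (κ : ℕ), ∀ s : ℂ, 0 < s.re →
      ‖F (c + s)‖ ≤ C * (1 + ‖s‖) ^ κ * (1 + 1 / s.re) ^ κ := by
  obtain ⟨hd, h1, ⟨C, κ, hg⟩, hL⟩ := hF
  have hprod : ∀ s : ℂ, 1 / 2 < s.re → F (c + s) = LE M β s := by
    intro s hs
    have h1 := hL (c + s) (by rw [Complex.add_re, Complex.ofReal_re]; linarith)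
    simp only [add_sub_cancel_left] at h1
    exact h1.tprod_eq.symm
  have hana : ∀ s : ℂ, c < s.re → AnalyticAt ℂ F s := by
    intro s hs
    have hU : IsOpen {s : ℂ | c < s.re} := isOpen_lt continuous_const Complex.continuous_re
    exact (DifferentiableOn.analyticOnNhd (fun z hz => (hd z hz).differentiableWithinAt) hU) s hs
  refine ⟨?_, fun m hm => ?_, ?_⟩
  · have hfin : analyticOrderAt F c ≠ ⊤ := by
      intro htop
      rw [analyticOrderAt_eq_top] at htop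
      obtain ⟨ε, hε, hball⟩ := Metric.eventually_nhds_iff_ball.1 htop
      have hUc : Convex ℝ {s : ℂ | c < s.re} := convex_halfSpace_re_gt _
      have a1 : AnalyticOnNhd ℂ F {s : ℂ | c < s.re} := fun s hs => hana s hs
      set z₀ : ℂ := c + ((ε / 2 : ℝ) : ℂ) with hz₀
      have hz₀re : c < z₀.re := by
        rw [hz₀, Complex.add_re, Complex.ofReal_re, Complex.ofReal_re]
        linarith
      have hz₀b : z₀ ∈ Metric.ball (c : ℂ) ε := by
        rw [Metric.mem_ball, dist_eq_norm, hz₀, add_sub_cancel_left, Complex.norm_real,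
          Real.norm_eq_abs, abs_of_pos (half_pos hε)]
        linarith
      have h2 := a1.eqOn_of_preconnected_of_eventuallyEq (analyticOnNhd_const (v := (0 : ℂ)))
        hUc.isPreconnected (show z₀ ∈ {s : ℂ | c < s.re} from hz₀re) (by
          filter_upwards [Metric.isOpen_ball.mem_nhds hz₀b] with s hs
          exact hball s hs)
      have h3 : F (c + 1) = 0 := h2 (show c < ((c : ℂ) + 1).re by
        rw [Complex.add_re, Complex.ofReal_re, Complex.one_re]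
        linarith)
      have h4 := hprod 1 (by norm_num)
      have h5 := (E.LE_diff (s := 1) (by norm_num)).2
      rw [h3] at h4
      exact h5 h4.symm
    obtain ⟨p, hp⟩ := ENat.ne_top_iff_exists.1 hfin
    exact ⟨p, hp.symm⟩
  · have hga : AnalyticAt ℂ (fun z : ℂ => F (c + z)) 0 := by
      have h2 : AnalyticAt ℂ (fun z : ℂ => c + z) 0 := by fun_prop
      exact AnalyticAt.comp (f := fun z : ℂ => c + z) (by simpa using h1) h2
    refine ⟨E, hreal, fun s hs => ?_, hprod, hga, order_shift_ana h1 hm⟩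
    exact DifferentiableAt.comp s (f := fun s : ℂ => c + s)
      (hd (c + s) (by rw [Complex.add_re, Complex.ofReal_re]; linarith)) (by fun_prop)
  · refine ⟨|C| * (1 + |c|) ^ κ, κ, fun s hs => ?_⟩
    have h2 := hg (c + s) (by rw [Complex.add_re, Complex.ofReal_re]; linarith)
    have h3 : (c + s).re - c = s.re := by rw [Complex.add_re, Complex.ofReal_re]; ring
    rw [h3] at h2
    have h4 : 1 + ‖c + s‖ ≤ (1 + |c|) * (1 + ‖s‖) := by
      have := norm_add_le (c : ℂ) s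
      rw [Complex.norm_real, Real.norm_eq_abs] at this
      nlinarith [norm_nonneg s, abs_nonneg c]
    have h5 : 0 ≤ (1 + 1 / s.re) ^ κ := by positivity
    refine h2.trans ?_
    calc C * (1 + ‖c + s‖) ^ κ * (1 + 1 / s.re) ^ κ ≤
          |C| * ((1 + |c|) * (1 + ‖s‖)) ^ κ * (1 + 1 / s.re) ^ κ := by
          refine mul_le_mul_of_nonneg_right ?_ h5
          exact mul_le_mul (le_abs_self _) (pow_le_pow_left₀ (by positivity) h4 κ) (by positivity)
            (abs_nonneg _)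
      _ = _ := by rw [mul_pow]; ring

/-- **both Riesz laws** -/
theorem riesz_all (E : Sys M β) (hreal : ∀ v k, (∑ i, zv M β v i ^ k).im = 0)
    (hF : ModerateAt c M β F) {T : ℝ → ℝ → ℝ} (hT : ∀ k Y, 1 < Y → T k Y = Sv M β k Y) :
    (∀ ρ : ℝ, List.TFAE [
      (∀ s : ℂ, c < s.re → F s ≠ 0) ∧ ∃ m : ℕ, ρ = m ∧ analyticOrderAt F c = m,
      ∀ k : ℝ, 0 < k → ∃ B : ℝ, ∀ᶠ Y : ℝ in atTop,
        |T k Y - ρ * Real.log (Real.log Y)| ≤ B,
      ∃ k : ℝ, 0 < k ∧
        Tendsto (fun Y : ℝ => T k Y / Real.log (Real.log Y)) atTop (𝓝 ρ)]) ∧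
    (∀ ρ : ℝ, List.TFAE [
      (∀ s : ℂ, c < s.re → F s ≠ 0) ∧ ∃ m : ℕ, (m : ℝ) ≤ ρ ∧ analyticOrderAt F c = m,
      ∀ k : ℝ, 0 < k → ∃ B : ℝ, ∀ᶠ Y : ℝ in atTop,
        T k Y ≤ ρ * Real.log (Real.log Y) + B,
      ∃ k : ℝ, 0 < k ∧ ∀ ε : ℝ, 0 < ε → ∀ᶠ Y : ℝ in atTop,
        T k Y ≤ (ρ + ε) * Real.log (Real.log Y)]) := by
  obtain ⟨⟨m, hm⟩, hLw, C, κ, hgrow⟩ := mod_data E hreal hF
  have H := hLw m hm
  have hnz : (∀ s : ℂ, c < s.re → F s ≠ 0) ↔ ∀ s : ℂ, 0 < s.re → F (c + s) ≠ 0 :=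
    (zeros_shiftC F c).symm
  refine ⟨fun ρ => ?_, fun ρ => ?_⟩
  · have t := Pool.Agent.Q5.MS.riesz_law H hgrow ρ
    have h1 : ((∀ s : ℂ, c < s.re → F s ≠ 0) ∧ ∃ m : ℕ, ρ = m ∧ analyticOrderAt F c = m) ↔
        ((∀ s : ℂ, 0 < s.re → F (c + s) ≠ 0) ∧ ρ = m) := by
      rw [hnz]
      refine and_congr_right fun _ => ⟨?_, fun h => ⟨m, h, hm⟩⟩
      rintro ⟨n, h2, h3⟩
      have : (n : ℕ∞) = m := by rw [← h3, hm]
      rw [h2]
      exact_mod_cast this
    have h2 : (∀ k : ℝ, 0 < k → ∃ B : ℝ, ∀ᶠ Y : ℝ in atTop,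
        |T k Y - ρ * Real.log (Real.log Y)| ≤ B) ↔
        ∀ k : ℝ, 0 < k → ∃ B : ℝ, ∀ᶠ Y : ℝ in atTop,
          |Sv M β k Y - ρ * Real.log (Real.log Y)| ≤ B := by
      refine forall_congr' fun k => imp_congr_right fun _ => exists_congr fun B =>
        eventually_congr ?_
      filter_upwards [eventually_gt_atTop 1] with Y hY
      rw [hT k Y hY]
    have h3 : (∃ k : ℝ, 0 < k ∧
        Tendsto (fun Y : ℝ => T k Y / Real.log (Real.log Y)) atTop (𝓝 ρ)) ↔
        ∃ k : ℝ, 0 < k ∧ Tendsto (fun Y : ℝ => Sv M β k Y /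
          Real.log (Real.log Y)) atTop (𝓝 ρ) := by
      refine exists_congr fun k => and_congr_right fun _ => tendsto_congr' ?_
      filter_upwards [eventually_gt_atTop 1] with Y hY
      rw [hT k Y hY]
    rw [h1, h2, h3]
    exact t
  · have t := Pool.Agent.Q5.MS.riesz_upper H hgrow ρ
    have h1 : ((∀ s : ℂ, c < s.re → F s ≠ 0) ∧
        ∃ m : ℕ, (m : ℝ) ≤ ρ ∧ analyticOrderAt F c = m) ↔
        ((∀ s : ℂ, 0 < s.re → F (c + s) ≠ 0) ∧ (m : ℝ) ≤ ρ) := by
      rw [hnz]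
      refine and_congr_right fun _ => ⟨?_, fun h => ⟨m, h, hm⟩⟩
      rintro ⟨n, h2, h3⟩
      have h4 : (n : ℕ∞) = m := by rw [← h3, hm]
      have h5 : n = m := by exact_mod_cast h4
      rwa [← h5]
    have h2 : (∀ k : ℝ, 0 < k → ∃ B : ℝ, ∀ᶠ Y : ℝ in atTop,
        T k Y ≤ ρ * Real.log (Real.log Y) + B) ↔
        ∀ k : ℝ, 0 < k → ∃ B : ℝ, ∀ᶠ Y : ℝ in atTop,
          Sv M β k Y ≤ ρ * Real.log (Real.log Y) + B := by
      refine forall_congr' fun k => imp_congr_right fun _ => exists_congr fun B =>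
        eventually_congr ?_
      filter_upwards [eventually_gt_atTop 1] with Y hY
      rw [hT k Y hY]
    have h3 : (∃ k : ℝ, 0 < k ∧ ∀ ε : ℝ, 0 < ε → ∀ᶠ Y : ℝ in atTop,
        T k Y ≤ (ρ + ε) * Real.log (Real.log Y)) ↔
        ∃ k : ℝ, 0 < k ∧ ∀ ε : ℝ, 0 < ε → ∀ᶠ Y : ℝ in atTop,
          Sv M β k Y ≤ (ρ + ε) * Real.log (Real.log Y) := by
      refine exists_congr fun k => and_congr_right fun _ => forall_congr' fun ε =>
        imp_congr_right fun _ => eventually_congr ?_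
      filter_upwards [eventually_gt_atTop 1] with Y hY
      rw [hT k Y hY]
    rw [h1, h2, h3]
    exact t

end Pool.Agent.Q5.VA
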