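import Pool.Agent.H21.L.R_seed8.TH942.ES.NF
import Pool.Agent.H21.L.R_seed8.W353.PV.Eig
import Pool.Agent.H21.L.R_seed8.TH958.BV.Defs

/-!
# The Euler system of a smooth projective variety over a number field
-/

set_option autoImplicit false

open Filter Topology Complex NumberField IsDedekindDomain ComplexConjugate

namespace Pool.Agent.Q5.VA

open Pool.Agent.TH942.ES (Sys zv xv cv nf_sys)
open Pool.Agent.H921R2.TatePole (nm two_le_nm)
open Pool.Agent.TH958.BV (IsFrobenius)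
open Pool.Agent.W353.PV (Eig)

variable {K : Type} [Field K] [NumberField K] {n : ℕ} {X : Set (MvPolynomial (Fin n) (𝓞 K))}
  {d i N : ℕ}

theorem eig_of {v : HeightOneSpectrum (𝓞 K)} {α : Fin N → ℂ} (h : IsFrobenius X d i v α) :
    Eig X d i (F := K) v α := by
  obtain ⟨β, h1, h2, h3⟩ := h
  refine ⟨β, h1, h2, fun κ _ _ φ e hφ he => ?_⟩
  refine Eq.trans (congrArg (fun ψ : 𝓞 K →+* κ => (Pool.Agent.TH958.BV.cone X ψ : ℂ)) ?_)
    (h3 κ φ e hφ he)
  refine RingHom.ext fun x => congrArg φ ?_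
  exact RingOfIntegers.ext rfl

theorem frob_conj (hi : i ≤ 2 * d) {v : HeightOneSpectrum (𝓞 K)} {α : Fin N → ℂ}
    (h : IsFrobenius X d i v α) :
    Finset.univ.val.map α = Finset.univ.val.map fun j => conj (α j) :=
  (eig_of h).unique' hi (eig_of h).conj

theorem frob_norm {v : HeightOneSpectrum (𝓞 K)} {α : Fin N → ℂ}
    (h : IsFrobenius X d i v α) (j : Fin N) : ‖α j‖ = (nm v : ℝ) ^ ((i : ℝ) / 2) :=
  (eig_of h).norm j

/-- sums over the eigenvalues of functions which commute with the complex conjugation are real -/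
theorem sum_im (hi : i ≤ 2 * d) {v : HeightOneSpectrum (𝓞 K)} {α : Fin N → ℂ}
    (h : IsFrobenius X d i v α) {f : ℂ → ℂ} (hf : ∀ j, f (conj (α j)) = conj (f (α j))) :
    (∑ j, f (α j)).im = 0 := by
  have h1 := congrArg (fun s : Multiset ℂ => (s.map f).sum) (frob_conj hi h)
  simp only [Multiset.map_map] at h1
  have h2 : ∑ j, f (α j) = ∑ j, f (conj (α j)) := h1
  rw [← Complex.conj_eq_iff_im, map_sum]
  refine Eq.trans ?_ h2.symm
  exact Finset.sum_congr rfl fun j _ => (hf j).symm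

variable (X d i N)

/-- the primes with eigenvalues -/
def GoodF (v : HeightOneSpectrum (𝓞 K)) : Prop := ∃ α : Fin N → ℂ, IsFrobenius X d i v α

open Classical in
/-- the eigenvalues -/
noncomputable def ev (v : HeightOneSpectrum (𝓞 K)) : Fin N → ℂ :=
  if h : GoodF X d i N v then h.choose else 0

variable {X d i N}

theorem ev_spec {v : HeightOneSpectrum (𝓞 K)} (h : GoodF X d i N v) :
    IsFrobenius X d i v (ev X d i N v) := by
  unfold ev
  rw [dif_pos h]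
  exact h.choose_spec

/-- products over the eigenvalues do not depend on the choice -/
theorem prod_ev (hi : i ≤ 2 * d) {v : HeightOneSpectrum (𝓞 K)} {α : Fin N → ℂ}
    (h : IsFrobenius X d i v α) (F : ℂ → ℂ) : ∏ j, F (α j) = ∏ j, F (ev X d i N v j) := by
  have h3 := ev_spec (X := X) (d := d) (i := i) (N := N) (v := v) ⟨α, h⟩
  have h4 := congrArg (fun s : Multiset ℂ => (s.map F).prod) ((eig_of h).unique' hi (eig_of h3))
  simp only [Multiset.map_map] at h4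
  exact h4

theorem sum_ev (hi : i ≤ 2 * d) {v : HeightOneSpectrum (𝓞 K)} {α : Fin N → ℂ}
    (h : IsFrobenius X d i v α) (F : ℂ → ℂ) : ∑ j, F (α j) = ∑ j, F (ev X d i N v j) := by
  have h3 := ev_spec (X := X) (d := d) (i := i) (N := N) (v := v) ⟨α, h⟩
  have h4 := congrArg (fun s : Multiset ℂ => (s.map F).sum) ((eig_of h).unique' hi (eig_of h3))
  simp only [Multiset.map_map] at h4
  exact h4

variable (X d i N) (p : HeightOneSpectrum (𝓞 K) → Prop)

/-- the norms -/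
noncomputable abbrev Nv : {v // p v} → ℕ := fun v => nm v.1

/-- the normalised eigenvalues -/
noncomputable def al (v : {v // p v}) (j : Fin N) : ℂ :=
  ev X d i N v.1 j / (((nm v.1 : ℝ) ^ ((i : ℝ) / 2) : ℝ) : ℂ)

variable {X d i N p}

theorem zv_eq (v : {v // p v}) (j : Fin N) :
    zv (Nv p) (al X d i N p) v j =
      ev X d i N v.1 j * (((nm v.1 : ℝ) ^ (-(((i : ℝ) + 1) / 2)) : ℝ) : ℂ) := by
  have hp2 : (2 : ℝ) ≤ nm v.1 := by exact_mod_cast two_le_nm v.1
  have hq : (0 : ℝ) < nm v.1 := by linarith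
  unfold zv al
  rw [div_div, ← Complex.ofReal_mul, Real.sqrt_eq_rpow, ← Real.rpow_add hq, div_eq_mul_inv,
    ← Complex.ofReal_inv, ← Real.rpow_neg hq.le]
  congr 4
  ring

theorem al_norm (hp : ∀ v, p v → GoodF X d i N v) (v : {v // p v}) (j : Fin N) :
    ‖al X d i N p v j‖ ≤ 1 := by
  have hp2 : (2 : ℝ) ≤ nm v.1 := by exact_mod_cast two_le_nm v.1
  have h0 : 0 < (nm v.1 : ℝ) ^ ((i : ℝ) / 2) := Real.rpow_pos_of_pos (by linarith) _
  unfold al
  rw [norm_div, frob_norm (ev_spec (hp v.1 v.2)) j, Complex.norm_real,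
    Real.norm_of_nonneg h0.le, div_self h0.ne']

theorem va_log (hi : i ≤ 2 * d) (hp : ∀ v, p v → GoodF X d i N v) (v : {v // p v}) :
    (∑ j, log (1 - zv (Nv p) (al X d i N p) v j)).im = 0 := by
  have hp2 : (2 : ℝ) ≤ nm v.1 := by exact_mod_cast two_le_nm v.1
  have hq : (0 : ℝ) < nm v.1 := by linarith
  have hspec := ev_spec (hp v.1 v.2)
  simp only [zv_eq]
  refine sum_im hi hspec (f := fun z => log (1 - z *
    (((nm v.1 : ℝ) ^ (-(((i : ℝ) + 1) / 2)) : ℝ) : ℂ))) fun j => ?_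
  have h1 : ‖ev X d i N v.1 j * (((nm v.1 : ℝ) ^ (-(((i : ℝ) + 1) / 2)) : ℝ) : ℂ)‖ < 1 := by
    have h0 : 0 < (nm v.1 : ℝ) ^ (-(((i : ℝ) + 1) / 2)) := Real.rpow_pos_of_pos hq _
    rw [norm_mul, frob_norm hspec j, Complex.norm_real, Real.norm_of_nonneg h0.le,
      ← Real.rpow_add hq]
    refine Real.rpow_lt_one_of_one_lt_of_neg (by linarith) ?_
    linarith
  have h2 : (1 - ev X d i N v.1 j * (((nm v.1 : ℝ) ^ (-(((i : ℝ) + 1) / 2)) : ℝ) : ℂ)).arg ≠
      Real.pi := by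
    intro h3
    rw [Complex.arg_eq_pi_iff] at h3
    have h4 := (abs_le.1 (Complex.abs_re_le_norm (ev X d i N v.1 j *
      (((nm v.1 : ℝ) ^ (-(((i : ℝ) + 1) / 2)) : ℝ) : ℂ)))).2
    have h5 := h3.1
    rw [Complex.sub_re, Complex.one_re] at h5
    linarith
  have h3 : 1 - conj (ev X d i N v.1 j) * (((nm v.1 : ℝ) ^ (-(((i : ℝ) + 1) / 2)) : ℝ) : ℂ) =
      conj (1 - ev X d i N v.1 j * (((nm v.1 : ℝ) ^ (-(((i : ℝ) + 1) / 2)) : ℝ) : ℂ)) := by
    rw [map_sub, map_one, map_mul, Complex.conj_ofReal]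
  rw [h3, Complex.log_conj _ h2]

/-- **the Euler system of a variety** -/
theorem va_sys (hi : i ≤ 2 * d) (hp : ∀ v, p v → GoodF X d i N v) :
    Sys (Nv p) (al X d i N p) :=
  nf_sys p (al X d i N p) (al_norm hp) fun v => va_log hi hp v

/-- the power sums are real -/
theorem va_real (hi : i ≤ 2 * d) (hp : ∀ v, p v → GoodF X d i N v) (v : {v // p v}) (k : ℕ) :
    (∑ j, zv (Nv p) (al X d i N p) v j ^ k).im = 0 := by
  simp only [zv_eq]
  refine sum_im hi (ev_spec (hp v.1 v.2)) (f := fun z => (z *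
    (((nm v.1 : ℝ) ^ (-(((i : ℝ) + 1) / 2)) : ℝ) : ℂ)) ^ k) fun j => ?_
  rw [map_pow, map_mul, Complex.conj_ofReal]

/-- the logarithm of the local factor at the centre -/
theorem va_cv (hp : ∀ v, p v → GoodF X d i N v) (v : {v // p v}) :
    cv (Nv p) (al X d i N p) v = Real.log ‖∏ j, (1 - ev X d i N v.1 j *
      (((nm v.1 : ℝ) ^ (-(((i : ℝ) + 1) / 2)) : ℝ) : ℂ))‖ := by
  have hp2 : (2 : ℝ) ≤ nm v.1 := by exact_mod_cast two_le_nm v.1
  have hq : (0 : ℝ) < nm v.1 := by linarith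
  have hne : ∀ j, 1 - ev X d i N v.1 j *
      (((nm v.1 : ℝ) ^ (-(((i : ℝ) + 1) / 2)) : ℝ) : ℂ) ≠ 0 := by
    intro j h
    have h0 : 0 < (nm v.1 : ℝ) ^ (-(((i : ℝ) + 1) / 2)) := Real.rpow_pos_of_pos hq _
    have h1 : ‖ev X d i N v.1 j * (((nm v.1 : ℝ) ^ (-(((i : ℝ) + 1) / 2)) : ℝ) : ℂ)‖ < 1 := by
      rw [norm_mul, frob_norm (ev_spec (hp v.1 v.2)) j, Complex.norm_real,
        Real.norm_of_nonneg h0.le, ← Real.rpow_add hq]
      refine Real.rpow_lt_one_of_one_lt_of_neg (by linarith) ?_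
      linarith
    rw [← sub_eq_zero.1 h, norm_one] at h1
    exact lt_irrefl _ h1
  unfold cv
  rw [norm_prod, Real.log_prod (fun j _ => norm_ne_zero_iff.2 (hne j)), Complex.re_sum]
  refine Finset.sum_congr rfl fun j _ => ?_
  rw [zv_eq, Complex.log_re]

/-- the local factors -/
theorem va_factor (v : {v // p v}) (s : ℂ) :
    ∏ j, (1 - zv (Nv p) (al X d i N p) v j * xv (Nv p) v s)⁻¹ =
      (∏ j, (1 - ev X d i N v.1 j * (nm v.1 : ℂ) ^ (-((((i : ℝ) + 1) / 2 : ℝ) + s))))⁻¹ := by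
  have hp2 : (2 : ℝ) ≤ nm v.1 := by exact_mod_cast two_le_nm v.1
  have hq : (0 : ℝ) < nm v.1 := by linarith
  have hqc : (nm v.1 : ℂ) ≠ 0 := by exact_mod_cast hq.ne'
  rw [Finset.prod_inv_distrib]
  congr 1
  refine Finset.prod_congr rfl fun j _ => ?_
  rw [zv_eq, mul_assoc]
  congr 2
  have h1 : xv (Nv p) v s = (nm v.1 : ℂ) ^ (-s) := by
    unfold xv
    rw [Complex.cpow_def_of_ne_zero hqc, ← Complex.ofReal_natCast, ← Complex.ofReal_log hq.le]
    congr 1
    ring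
  have h2 : (((nm v.1 : ℝ) ^ (-(((i : ℝ) + 1) / 2)) : ℝ) : ℂ) =
      (nm v.1 : ℂ) ^ (-((((i : ℝ) + 1) / 2 : ℝ) : ℂ)) := by
    rw [Complex.ofReal_cpow hq.le]
    push_cast
    rfl
  rw [h1, h2, ← Complex.cpow_add _ _ hqc]
  congr 1
  ring

end Pool.Agent.Q5.VA
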